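import Pool.Agent.MP_ee8c61_ag.Q3FT.RRs
import Pool.Agent.MP_ee8c61_ag.Q3FT.REx
import Pool.Agent.MP_ee8c61_ag.Q3FT.RZf
import Pool.Agent.MP_ee8c61_ag.Q3FT.RP3
import Pool.Agent.MP_ee8c61_ag.Q3FT.RNn
import Pool.Agent.MP_ee8c61_ag.Q3FT.RFt
import Pool.Agent.MP_ee8c61_ag.Q3FG.Out

/-! Strata of exponent zero and polynomials that cut out the divisors of negative exponent. -/

namespace Pool.Agent.MP_ee8c61_ag.Q3B

open M3 M3RESID M3F M3E Q3 Q3FT Q3FT.RNn Finset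
open M3BK (Nrm)
open M3K (Tc)
open Pool.Agent.MP_96693b_ag.RS (Loc LocOf)

noncomputable section

variable {f : Po 3} {W M : M3.Mod 3} {la : ℚ} {V : Vl 3} {τ : KK 3} {o j l : M.J}

theorem lc_up (D : Dom W M) (hW : W.OK f) (hM : M.OK f) {a : M.ι} {b : W.ι} (ha : M.In a V)
    (hb : W.In b V) (h : Lc (M.S.A a) V τ) : Lc (W.S.A b) V τ := by
  obtain ⟨s, h1, h2, h3⟩ := h
  have C := (eout.dc 3 f W M D hW hM).lc a b V ha hb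
  have := ((C s h1).inv h2).mul (C _ h3)
  rwa [inv_mul_cancel_left₀ h2.1] at this

/-- Local functions are regular along the divisors through the centre on a higher model. -/
theorem le_v (D : Dom W M) (hW : W.OK f) (hM : M.OK f) {a : M.ι} (ha : M.In a V) {i : W.J}
    (hi : W.Thru V i) (h : Lc (M.S.A a) V τ) : τ ∈ (W.v i).O := by
  obtain ⟨b, hb⟩ := hW.cov V ((eout.bas 3 f M hM).ov a V ha)
  obtain ⟨h1, -, -, h2⟩ := (eout.bas 3 f W hW).in_v b V i hb hi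
  exact (lc_up D hW hM ha hb h).mem h1 fun s hs u => (W.v i).un_O.2 ⟨u.1, h2 s hs u⟩

/-- The polynomial `g` is a unit of `F` and vanishes on the divisors of negative exponent. -/
def Cut (M : M3.Mod 3) (la : ℚ) (F : Vl 3) (g : Po 3) : Prop :=
  Un F (ip 3 g) ∧ ∀ m, M.ex la m < 0 → ip 3 g ∈ (M.v m).F 1

/-- A curve over a triple point. -/
theorem p3 (hM : M.OK f) (hj : o ≠ j) (hl : o ≠ l) (hjl : j ≠ l) {Q : Loc (KK 3)} (hP : Q ∈ M.pts)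
    (qo : M.On Q o) (qj : M.On Q j) (ql : M.On Q l) : ∃ (V : Vl 3) (b : M.ι),
      LocOf (M.S.A b) Q ∧ (∀ g ∈ Q.O, g ∈ V) ∧ V ≤ (M.v o).O ∧ M.Thru V j ∧ M.Thru V l ∧
      Tc V (M.η b j / M.η b l) := by
  obtain ⟨b₀, hb₀⟩ := hP
  have B := M3E.eout.bas 3 f M hM
  obtain ⟨C, lab, hQ⟩ : ∃ C lab, M3BK.Pt3 M f Q C lab :=
    ⟨_, _, M3BK.pt3 hM (M3E.eout.nb 3 f M hM) hb₀⟩
  obtain ⟨i, hi⟩ := (hQ.on o).1 qo
  obtain ⟨i₁, h₁⟩ := (hQ.on j).1 qj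
  obtain ⟨i₀, h₀⟩ := (hQ.on l).1 ql
  obtain ⟨b, hb, hz⟩ := hQ.ch
  have hd := hQ.dat i o hi
  have n₁ : i₁ ≠ i := fun e => hj (Option.some.inj (hi.symm.trans (e ▸ h₁)))
  have n₀ : i₀ ≠ i := fun e => hl (Option.some.inj (hi.symm.trans (e ▸ h₀)))
  have n : i₁ ≠ i₀ := fun e => hjl (Option.some.inj (h₁.symm.trans (e ▸ h₀)))
  obtain ⟨C', x, hR, hx, hg⟩ := M3BK.RFl.res (P := (M.v o).pl) hQ.rg hd
  have hr := M3BQ.rg_iff.1 hg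
  obtain ⟨D, hD, e₀, e₁⟩ : ∃ D, M3BQ.Reg x D ∧ D.z 0 = (M.v o).pl.π (C.z i₀) ∧
      D.z 1 = (M.v o).pl.π (C.z i₁) := by
    obtain ⟨a₁, rfl⟩ := Fin.exists_succAbove_eq n₁
    obtain ⟨a₀, rfl⟩ := Fin.exists_succAbove_eq n₀
    rw [← hR a₀, ← hR a₁]
    have : a₁ ≠ a₀ := fun e => n (by rw [e])
    fin_cases a₀ <;> fin_cases a₁
    · exact absurd rfl this
    · exact ⟨_, hr, rfl, rfl⟩
    · exact ⟨_, hr.sw, rfl, rfl⟩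
    · exact absurd rfl this
  obtain ⟨Γ, hΓ⟩ := M3BQ.sord _ x D hD
  have dm := M3BK.RSurf.dm_lift hx (M3BQ.dm_iff.2 hΓ.dm)
  have hb' : M.In b (M3BK.RSurf.lift (M.v o).pl Γ.O) := fun g hg => dm.1 g (hb.le hg)
  have th : ∀ {t s}, lab t = some s → M.Thru (M3BK.RSurf.lift (M.v o).pl Γ.O) s := fun e =>
    (B.thru_iff b _ _ hb').2 (hz _ _ e ▸ dm.2 _ (hQ.rg.st.z _) (hQ.rg.ev _))
  refine ⟨_, b, hb, dm.1, M3BK.RSurf.lift_le, th h₁, th h₀, fun a => ?_⟩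
  have v₀ : (M.v o).pl.o.v (C.z i₀) = 0 := hd.adp.vz' n₀
  have m₁ : C.z i₁ ∈ (M.v o).pl.o.F 0 := hd.le _ (hQ.rg.st.z _)
  have m : C.z i₁ / C.z i₀ ∈ (M.v o).pl.o.F 0 := by simpa [v₀] using F_div m₁ (C.z i₀)
  obtain ⟨R, hq⟩ := M3BQ.sqex _ x D a hD
  have k := M3BQ.sexc _ x D Γ a R hD hΓ hq
  rw [← hz _ _ h₁, ← hz _ _ h₀]
  refine M3BK.RSurf.un_lift.2 ⟨sub_mem m (cst_F _ _), ?_⟩
  rw [Pl.π_sub m (cst_F _ _), Pl.π_cst, Pl.π_div m₁ (C.ne _) v₀, ← e₀, ← e₁]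
  exact Γ.un_O.2 ⟨(M3BQ.qt D a).ne 1, k.adp.vz' (j := 1) (by decide)⟩

theorem thr3 (hM : M.OK f) (oj : o ≠ j) (ol : o ≠ l) (jl : j ≠ l) {Q : Loc (KK 3)}
    (hQ : Q ∈ M.pts) (eo : M.ex la o = 0) (ej : M.ex la j = 0) (el : M.ex la l = 0)
    (qo : M.On Q o) (qj : M.On Q j) (ql : M.On Q l) : ∃ (F : Vl 3) (g : Po 3),
      (∀ τ ∈ Q.O, τ ∈ F) ∧ (M.Thru F o ∧ M.Thru F j ∧ M.Thru F l) ∧ Cut M la F g := by
  have hf : f ≠ 0 := fun e => by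
    obtain ⟨b, -⟩ := hQ
    obtain ⟨U, -, h⟩ := hM.ord b
    rw [e, map_zero] at h
    exact mul_ne_zero U.ne_zero (M.mon_ne _ _) h.symm
  have K := kout_of eout
  have B := eout.bas 3 f M hM
  obtain ⟨V, a, hl₀, hQV, hVo, tj, tl, ht⟩ := p3 hM oj ol jl hQ qo qj ql
  have ha : M.In a V := fun g hg => hQV g (hl₀.le hg)
  have hV : Ov V := B.ov a V ha
  have t0 : M.Thru V o := B.thru_le V o hV hVo
  have z3 : ∀ V', Ov V' → M.Thru V' o → M.Thru V' j → M.Thru V' l → ∀ m, M.Thru V' m →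
      M.ex la m = 0 := fun V' h h1 h2 h3 m hm => by
    rcases three hM h oj ol jl h1 h2 h3 hm with rfl | rfl | rfl <;> assumption
  obtain ⟨W1, D1, hW1, hl⟩ := K.real 3 f M hM o V _ hV hVo (tc_un ht)
  have T1 := K.th 3 f W1 M D1 hW1 hM
  obtain ⟨a1, ha1⟩ := hW1.cov V hV
  obtain ⟨i1, t1, mj⟩ := (T1 V j hV).1 tj
  have hne : ∀ i m, m ≠ o → 0 < D1.m i m → i ≠ D1.e o := fun i m h1 h2 e => by
    rw [e, m_e D1 hW1 hM, if_neg h1.symm] at h2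
    exact lt_irrefl _ h2
  have hC : W1.IsCv (D1.e o) i1 V := K.up f W1 hW1 _ i1 V a1 _ (hne _ _ oj.symm mj) ha1
    (by rw [D1.v]; exact hVo) t1 (hl a1 ha1) ht
  have ml : 0 < D1.m i1 l := by
    obtain ⟨i, t, m⟩ := (T1 V l hV).1 tl
    rcases (eout.cv 3 f W1 hW1).thru _ _ V i hC t with e | e
    · exact absurd e (hne _ _ ol.symm m)
    · exact e ▸ m
  have hm : M.η a j / M.η a l * M.mon a (M.e l - M.e j) = 1 := by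
    have e1 := B.mon_e a l 1
    have e2 := B.mon_e a j 1
    rw [one_smul, zpow_one] at e1 e2
    have n1 : M.η a l ≠ 0 := Units.ne_zero _
    have n2 : M.η a j ≠ 0 := Units.ne_zero _
    rw [sub_eq_add_neg, B.mon_add, B.mon_neg, e1, e2]
    field_simp
  have hmo := K.mo f W1 M D1 hW1 hM o j l i1 V a (M.e l - M.e j) _ oj ol jl hC ha tj tl
    (K.r0 f M hM V a o j l oj ol jl ha t0 tj tl)
    (by rw [hm]; exact ⟨1, one_mem _, un_one, by rw [one_mul]; exact one_mem _⟩)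
    (by rw [hm]; exact un_one) ht
  have e1 : W1.ex la i1 = 0 := by
    rw [ex_pb D1 hW1 hM, hmo, sub_self, zero_add]
    refine sum_eq_zero fun m _ => ?_
    rcases Nat.eq_zero_or_pos (D1.m i1 m) with e | e
    · simp [e]
    · rw [z3 V hV t0 tj tl m ((T1 V m hV).2 ⟨i1, t1, e⟩), mul_zero]
  have e0 : W1.ex la (D1.e o) = 0 := (ex_e D1 hW1 hM o).trans eo
  obtain ⟨W2, D2, i2, hW2, hZ⟩ := rZF f la W1 (D1.e o) i1 V hW1 e0 e1 hC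
  have T2 := K.th 3 f W2 W1 D2 hW2 hW1
  have B2 := eout.bas 3 f W2 hW2
  have dn : ∀ V', Ov V' → V' ≤ (W2.v i2).O → M.Thru V' o ∧ M.Thru V' j ∧ M.Thru V' l :=
    fun V' h h' => by
      have s := B2.thru_le V' i2 h h'
      have s1 := (T2 V' _ h).2 ⟨i2, s, hZ.mo⟩
      have s2 := (T2 V' i1 h).2 ⟨i2, s, by rw [hZ.mj]; exact one_pos⟩
      exact ⟨(T1 V' o h).2 ⟨_, s1, by rw [m_e D1 hW1 hM, if_pos rfl]; exact one_pos⟩,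
        (T1 V' j h).2 ⟨_, s2, mj⟩, (T1 V' l h).2 ⟨_, s2, ml⟩⟩
  obtain ⟨-, -, e, -, he, -⟩ := exists_rat (P := (W2.v i2).pl) hW2 hZ.ex rfl
  obtain ⟨g, g1, g2⟩ := Q3FG.sls f la W2 i2 e hf hW2 hZ.ex he fun Γ c h1 h2 h3 h4 => by
    have h5 : Ov (lift (W2.v i2).pl Γ) := fun p => ⟨B2.ov_v i2 p, Or.inr (h3 p).ge⟩
    obtain ⟨s1, s2, s3⟩ := dn _ h5 lift_le
    exact rNN f la W2 i2 e Γ c hW2 hZ.ex he h1 h2 h5 (up D2 hW2 hW1 i1 h5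
      (up D1 hW1 hM o h5 fun m hm => (z3 _ h5 s1 s2 s3 m hm).ge)) h4
  obtain ⟨s1, s2, s3⟩ := dn _ (B2.ov_v i2) le_rfl
  refine ⟨(W2.v i2).O, g, fun τ hτ => ?_, ⟨s1, s2, s3⟩, g1, fun m hm => ?_⟩
  · obtain ⟨p, hp, q, hq, h0, e⟩ := hl₀.frac τ hτ
    exact le_v D2 hW2 hW1 ha1 hZ.cv.2.2.2.1 (lc_up D1 hW1 hM ha ha1
      ⟨q, hq, M3BK.RSurf.un_of_ev hQV h0, by rwa [mul_comm, e]⟩)
  · have := g2 (D2.e (D1.e m)) (by rwa [ex_e D2 hW2 hW1, ex_e D1 hW1 hM])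
    rwa [D2.v, D1.v] at this

theorem thr2 (hf : f ≠ 0) (hM : M.OK f) {v : DV (KK 3)} (hv : v = M.v o) {G : DV v.kf}
    {e : Dv v.kf} {e' : Dv G.kf} (eo : M.ex la o = 0) (ej : M.ex la j = 0) (hG : Nrm G)
    (hV : M.IsCv o j (lift v.pl G)) (he : v.pl.RsD (dvf f la) e) (he' : G.pl.RsD e e') :
    (∃ (U : DV G.kf) (a : ℚ), Nrm U ∧ Exp e' U a ∧ a < 0) ∨ ∃ (F : Vl 3) (g : Po 3),
      (∀ a τ, M.In a (lift v.pl G) → Lc (M.S.A a) (lift v.pl G) τ → τ ∈ F) ∧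
      (M.Thru F o ∧ M.Thru F j) ∧ Cut M la F g := by
  subst hv
  obtain ⟨W, D, i, hW, hZ⟩ := rZF f la M o j _ hM eo ej hV
  have B := eout.bas 3 f W hW
  have T := (kout_of eout).th 3 f W M D hW hM (W.v i).O
  obtain ⟨-, -, d, -, hd, -⟩ := exists_rat (P := (W.v i).pl) hW hZ.ex rfl
  obtain ⟨ι, y, hR, -⟩ :=
    rFT f la W M D o j i G e e' _ (W.v i).pl d hW hM eo ej hG hV hZ he he' rfl hd
  refine or_iff_not_imp_left.2 fun hn => ?_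
  obtain ⟨g, g1, g2⟩ := Q3FG.sls f la W i d hf hW hZ.ex hd fun Γ c h1 h3 _ h5 => by
    obtain ⟨x0, x⟩ := rEX _ _ ι y e' d hR
    obtain ⟨x1, x2⟩ := x Γ c h1 h3 h5
    refine (rRS _ _ ι Γ).elim x1 fun ⟨U, m, hU⟩ => ?_
    obtain ⟨a', ha'⟩ := x0 U hU.1
    obtain ⟨⟨n, hc⟩, -⟩ := x2 U m a' hU ha'
    have : 0 ≤ a' := not_lt.1 fun h => hn ⟨U, a', hU.1, ha', h⟩
    rw [hc]
    positivity
  have s := B.thru_le _ i (B.ov_v i) le_rfl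
  refine ⟨(W.v i).O, g, fun a τ ha h => le_v D hW hM ha hZ.cv.2.2.2.1 h,
    ⟨(T _ (B.ov_v i)).2 ⟨i, s, hZ.mo⟩, (T _ (B.ov_v i)).2 ⟨i, s, by rw [hZ.mj]; exact one_pos⟩⟩,
    g1, fun m hm => ?_⟩
  have := g2 (D.e m) (by rwa [ex_e D hW hM])
  rwa [D.v] at this

end

end Pool.Agent.MP_ee8c61_ag.Q3B
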