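import Pool.Agent.MP_ee8c61_ag.R3B.Defs
import Pool.Agent.MP_ee8c61_ag.R3B.Abs

/-! Open parts of models over affine space; the output of the block. -/

namespace Pool.Agent.MP_ee8c61_ag.N3.Q3B

open Pool.Agent.MP_ee8c61_ag.M3
open M3RESID Polynomial
open Pool.Agent.MP_ee8c61_ag.M3L (aw le_aw mem_aw aw_val)
open Pool.Agent.MP_ee8c61_ag.Q3B (thr2 thr3 Cut)

noncomputable section

/-- The model `M` is an open part of the model `W` over affine space. -/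
structure Emb (M : Mod 3) (W : M3.Mod 3) where
  e : M.J → W.J
  ch : M.ι → W.ι
  inj : Function.Injective e
  v : ∀ j, M.v j = W.v (e j)
  a : ∀ j, M.a j = W.a (e j)
  k : ∀ j, M.k j = W.k (e j)
  η : ∀ b j, M.η b j = W.η (ch b) (e j)
  le : ∀ b, W.S.A (ch b) ≤ M.S.A b
  lc : ∀ b V, M.In b V → ∀ g ∈ M.S.A b, Lc (W.S.A (ch b)) V g
  sur : ∀ a b V, W.In a V → M.In b V → ∃ b', ch b' = a ∧ M.In b' V
  pts : ∀ Q ∈ M.pts, Q ∈ W.pts

theorem lc_aw {A : Subalgebra ℂ (KK 3)} {t g : KK 3} {V : Vl 3} (ht : t ∈ A) (h0 : t ≠ 0)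
    (hV : ∀ g ∈ aw A t, g ∈ V) (hg : g ∈ aw A t) : Lc A V g :=
  have h := (aw_val ht h0 V).1 hV
  let ⟨e, he⟩ := (mem_aw ht h0).1 hg
  ⟨t ^ e, pow_mem ht e, Un.pow ⟨h0, h.1 t ht, h.2⟩ e, he⟩

/-- The part where a section generates. -/
def emb0 {f : M3.Po 3} {W : M3.Mod 3} (B : Pool.Agent.MP_ee8c61_ag.M3E.Bas f W)
    {c : W.J → ℤ} {u F : KK 3}
    (hc : ∀ b, u * W.mon b c ∈ W.S.A b) (u0 : u ≠ 0) (hF : ∀ j, (W.v j).v F = W.a j) :
    Emb (B1.cv (N3B1.res W c u hc u0 F)) W where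
  e j := j.1
  ch b := b
  inj := Subtype.val_injective
  v _ := rfl
  a j := (congrArg Int.toNat (hF j.1)).trans (Int.toNat_natCast _)
  k _ := rfl
  η _ _ := rfl
  le _ := le_aw
  lc b _ hb _ hg := lc_aw (hc b) (mul_ne_zero u0 (W.mon_ne b c)) hb hg
  sur a _ _ ha hb := ⟨a, rfl, (N3B1.in_iff (hc := hc) (u0 := u0) (F := F) B).2
    ⟨ha, ((N3B1.in_iff (hc := hc) (u0 := u0) (F := F) B).1 hb).2⟩⟩
  pts _ hQ := hQ.imp fun b hb => ((locOf_aw (hc b) (mul_ne_zero u0 (W.mon_ne b c))).1 hb).1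

namespace Emb

variable {M : Mod 3} {W : M3.Mod 3} (E : Emb M W) {V : Vl 3} {la : ℚ} {o j : M.J}

/-- The part where a function is invertible. -/
def res {u F : KK 3} (hu : ∀ b, u ∈ M.S.A b) (u0 : u ≠ 0) (hF : ∀ j, (W.v j).v F = W.a j) :
    Emb (B1.res M 0 u (hc0 hu) u0 F) W :=
  have i : ∀ b V, (B1.res M 0 u (hc0 hu) u0 F).In b V ↔ M.In b V ∧ u⁻¹ ∈ V := fun b V =>
    (aw_val (hc0 hu b) (mul_ne_zero u0 (M.mon_ne b 0)) V).trans (by rw [mon_zero, mul_one]; rfl)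
  { e j := E.e j.1
    ch b := E.ch b
    inj := E.inj.comp Subtype.val_injective
    v j := E.v j.1
    a j := (congrArg Int.toNat (E.v j.1 ▸ hF _)).trans (Int.toNat_natCast _)
    k j := E.k j.1
    η b j := E.η b j.1
    le b := (E.le b).trans le_aw
    lc b V hb g hg := by
      obtain ⟨s, h1, h2, h3⟩ := lc_aw (hc0 hu b) (mul_ne_zero u0 (M.mon_ne b 0)) hb hg
      have C := E.lc b V ((i b V).1 hb).1
      have := ((C s h1).inv h2).mul (C _ h3)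
      rwa [inv_mul_cancel_left₀ h2.1] at this
    sur a b V ha hb :=
      (E.sur a b V ha ((i b V).1 hb).1).imp fun b' h => ⟨h.1, (i b' V).2 ⟨h.2, ((i b V).1 hb).2⟩⟩
    pts Q hQ := E.pts Q ((res_pts hu u0 F Q).1 hQ).1 }

theorem ex (j : M.J) : M.ex la j = W.ex la (E.e j) := by
  simp only [Mod.ex, M3.Mod.ex, E.a, E.k]

theorem inn {b : M.ι} (hb : M.In b V) : W.In (E.ch b) V := fun g hg => hb g (E.le b hg)

theorem thru (h : W.Thru V (E.e j)) : M.Thru V j := fun b hb => E.η b j ▸ h _ (E.inn hb)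

variable [Base]

theorem isCv {b : M.ι} (hb : M.In b V) (h : M.IsCv o j V) : W.IsCv (E.e o) (E.e j) V := by
  refine ⟨fun e => h.1 (E.inj e), h.2.1.pol, E.v o ▸ h.2.2.1, fun a ha => ?_,
    fun a ha g hg hn => ?_⟩
  · obtain ⟨b', rfl, h1⟩ := E.sur a b V ha hb
    exact E.η b' j ▸ h.2.2.2.1 b' h1
  obtain ⟨b', rfl, h1⟩ := E.sur a b V ha hb
  obtain ⟨s, hs, x, hx, y, hy, us, e⟩ := h.2.2.2.2 b' h1 g (E.le b' hg) hn
  obtain ⟨t1, a1, u1, m1⟩ := E.lc b' V h1 s hs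
  obtain ⟨t2, a2, u2, m2⟩ := E.lc b' V h1 x hx
  obtain ⟨t3, a3, u3, m3⟩ := E.lc b' V h1 y hy
  refine ⟨_, mul_mem (mul_mem a2 a3) m1, _, mul_mem (mul_mem a1 a3) m2, _,
    mul_mem (mul_mem a1 a2) m3, (u2.mul u3).mul (u1.mul us), ?_⟩
  rw [← E.η, ← E.η]
  linear_combination t1 * t2 * t3 * e

theorem dvd {f : M3.Po 3} {b : ℂ[X]} (hM : M.OK (pp 3 f)) (hR : RT (pp 3 f) b) {c : M.ι}
    (hc : M.In c V) {I : Finset M.J} (hI : ∀ i ∈ I, M.ex la i = 0 ∧ W.Thru V (E.e i))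
    {g : M3.Po 3} (hg : Cut W la V g) : (X + C (la : ℂ)) ^ I.card ∣ b :=
  hR M hM la I V g (fun p => hc _ (hM.pol c p))
    (fun i hi => ⟨(hI i hi).1, E.thru (hI i hi).2⟩) hg.1 fun m hm =>
      E.v m ▸ hg.2 _ (E.ex m ▸ hm)

include E in
theorem hh {f : M3.Po 3} {b : ℂ[X]} (hf : f ≠ 0) (hW : W.OK f) (hR : RT (pp 3 f) b) :
    HH (pp 3 f) b M := fun hM => by
  refine ⟨fun la I hI h0 Q hQ hO => ?_, fun la o j G e e' hn eo ej hG hV he he' => ?_⟩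
  · obtain ⟨o, j, l, oj, ol, jl, rfl⟩ := Finset.card_eq_three.1 hI
    have z : ∀ i ∈ ({o, j, l} : Finset M.J), W.ex la (E.e i) = 0 ∧ W.On Q (E.e i) := fun i hi =>
      ⟨E.ex i ▸ h0 i hi, fun g hg => E.v i ▸ hO i hi g hg⟩
    have zo := z o (by simp)
    have zj := z j (by simp)
    have zl := z l (by simp)
    obtain ⟨F, g, h1, ⟨t1, t2, t3⟩, h2⟩ := thr3 hW (E.inj.ne oj) (E.inj.ne ol) (E.inj.ne jl)
      (E.pts Q hQ) zo.1 zj.1 zl.1 zo.2 zj.2 zl.2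
    obtain ⟨c, hc⟩ := hQ
    refine hI ▸ E.dvd hM hR (c := c) (fun x hx => h1 x (hc.le hx)) (fun i hi => ⟨h0 i hi, ?_⟩) h2
    simp only [Finset.mem_insert, Finset.mem_singleton] at hi
    rcases hi with rfl | rfl | rfl <;> assumption
  obtain ⟨c, hc⟩ := hM.cov _ hV.2.1
  refine (thr2 hf hW (E.v o) (E.ex o ▸ eo) (E.ex j ▸ ej) hG (E.isCv hc hV) he he').resolve_right
    fun ⟨F, g, h1, ⟨t1, t2⟩, h2⟩ => hn ?_
  refine Finset.card_pair hV.1.symm ▸ E.dvd hM hR (c := c)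
    (fun x hx => h1 _ x (E.inn hc) (E.lc c _ hc x hx)) (fun i hi => ?_) h2
  simp only [Finset.mem_insert, Finset.mem_singleton] at hi
  rcases hi with rfl | rfl
  exacts [⟨eo, t1⟩, ⟨ej, t2⟩]

end Emb

theorem bout_of (hR : SRTI) : BOut := by
  classical
  intro r F b j B hb hj hO
  obtain ⟨W, hW, c, T, hT, hG⟩ := M3B1.sb1raw 3 (F j) (Finset.univ.image F) hj
    ⟨1, Finset.mem_image.2 ⟨j, Finset.mem_univ _, (pow_one _).symm⟩⟩
  have Bs := Pool.Agent.MP_ee8c61_ag.M3E.eout.bas 3 _ W hW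
  have nb := Pool.Agent.MP_ee8c61_ag.M3E.eout.nb 3 _ W hW
  have mT : ∀ g, g ∈ T ↔ ∃ i, M3.ip 3 (F i) = g := fun g => by
    rw [← Finset.mem_coe, hT]
    simp
  have f0 := M3B1.ip_ne hj
  have sec : ∀ i, M3.ip 3 (F i) ∈ W.H c := fun i => hG.1 _ ((mT _).2 ⟨i, rfl⟩)
  have hc := (nb.H c _).1 (sec j)
  have hF : ∀ i, (W.v i).v (M3.ip 3 (F j)) = W.a i := fun i =>
    ((Bs.gen_v i _ _).1 (Bs.gen_f _)).2.trans (neg_neg _)
  have k := N3B1.okr (hc := hc) (u0 := f0) hW Bs nb f0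
    (fun V => Bs.gen_congr V _ _ _ (fun i _ => by rw [hF]; rfl) (Bs.gen_f V)) fun i _ => by
      rw [hF]
      exact_mod_cast hW.pos i
  have eP : (fun V => M3.Ov V ∧ W.Gen V c (M3.ip 3 (F j))) = Ov := by
    refine funext fun V => propext ?_
    rw [hO.2, aw_val (one_mem _) one_ne_zero, inv_one, and_iff_left (one_mem V)]
    refine ⟨fun h => A0_le (B := ⟨V.toSubring.toSubsemiring, fun c =>
      (M3.ip 3).commutes c ▸ h.1 _⟩) h.1 fun i => (Bs.oc_div V c _ _ h.1 h.2).1 (sec i V h.1),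
      fun h => ?_⟩
    have hV : M3.Ov V := fun p => h _ (pol_mem p)
    obtain ⟨g, hg, h1⟩ := hG.2 V hV
    obtain ⟨i, rfl⟩ := (mT g).1 hg
    refine ⟨hV, fun a ha => Un.of_mul (h := M3.ip 3 (F i) / M3.ip 3 (F j)) ?_
      (ha _ (hc a)) (h _ (rat_mem i))⟩
    rw [mul_right_comm, mul_div_cancel₀ _ f0]
    exact h1 a ha
  refine ⟨_, B1.ok_of (eP ▸ k) (hO.gd hj (one_mem _) one_ne_zero), fun u hu u0 B₂ h1 h2 => ?_⟩
  exact @Emb.hh _ _ ((emb0 Bs hc f0 hF).res hu u0 hF) B₂ _ _ hj hW (hR r F b j u B₂ hb hj h1 u0 h2)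

end

end Pool.Agent.MP_ee8c61_ag.N3.Q3B
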