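import Pool.Agent.MP_ee8c61_ag.N3.Frame
import Pool.Agent.MP_ee8c61_ag.M3BK.Defs
import Pool.Agent.MP_ee8c61_ag.N3L.Final

/-! The two consequences of the threshold statement on a model over a chart of the blow-up. -/

namespace Pool.Agent.MP_ee8c61_ag.N3.Q3B

open Pool.Agent.MP_ee8c61_ag.M3
open M3RESID Polynomial
open M3BK (Nrm)
open Pool.Agent.MP_ee8c61_ag.M3L (aw)

noncomputable section

section

variable [Base]

/-- A triple point of divisors of exponent zero gives a triple root. -/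
def H3 (b : ℂ[X]) (M : Mod 3) : Prop := ∀ (la : ℚ) (I : Finset M.J), I.card = 3 →
  (∀ i ∈ I, M.ex la i = 0) → ∀ Q ∈ M.pts, (∀ i ∈ I, M.On Q i) → (X + C (la : ℂ)) ^ 3 ∣ b

/-- At a simple root a double curve of exponent zero has a place of negative exponent. -/
def H2 (f : Po 3) (b : ℂ[X]) (M : Mod 3) : Prop := ∀ (la : ℚ) (o j : M.J) (G : DV (M.v o).kf)
  (e : Dv (M.v o).kf) (e' : Dv G.kf), ¬(X + C (la : ℂ)) ^ 2 ∣ b → M.ex la o = 0 →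
  M.ex la j = 0 → Nrm G → M.IsCv o j (lift (M.v o).pl G) → (M.v o).pl.RsD (dvf f la) e →
  G.pl.RsD e e' → ∃ (U : DV G.kf) (a : ℚ), Nrm U ∧ Exp e' U a ∧ a < 0

/-- Local thresholds are roots of `b`, with multiplicity. -/
def RT (f : Po 3) (b : ℂ[X]) : Prop := ∀ M : Mod 3, M.OK f → ∀ (la : ℚ) (I : Finset M.J)
  (V : Vl 3) (g : M3.Po 3), Ov V → (∀ i ∈ I, M.ex la i = 0 ∧ M.Thru V i) → Un V (M3.ip 3 g) →
  (∀ i, M.ex la i < 0 → M3.ip 3 g ∈ (M.v i).F 1) → (X + C (la : ℂ)) ^ I.card ∣ b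

/-- Both. -/
def HH (f : Po 3) (b : ℂ[X]) (M : Mod 3) : Prop := M.OK f → H3 b M ∧ H2 f b M

end

/-- Local thresholds over the charts of the blow-up. -/
def SRTI : Prop := ∀ (r : ℕ) (F : Fin r → M3.Po 3) (b : ℂ[X]) (j : Fin r) (u : KK 3) (B : Base),
  H10.IsBS F b → F j ≠ 0 → u ∈ A0 F j → u ≠ 0 → Over B (aw (A0 F j) u) →
  RT (pp 3 (F j)) b

/-- The output of the block. -/
def BOut : Prop := ∀ (r : ℕ) (F : Fin r → M3.Po 3) (b : ℂ[X]) (j : Fin r) (B : Base),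
  H10.IsBS F b → F j ≠ 0 → Over B (aw (A0 F j) 1) → ∃ W : Mod 3, W.OK (pp 3 (F j)) ∧
    ∀ (u : KK 3) (hu : ∀ c, u ∈ W.S.A c) (u0 : u ≠ 0) (B₂ : Base), u ∈ A0 F j →
      Over B₂ (aw (A0 F j) u) →
      @HH B₂ (@pp B₂ 3 (F j)) b (B1.res W 0 u (hc0 hu) u0 (M3.ip 3 (F j)))

end

end Pool.Agent.MP_ee8c61_ag.N3.Q3B
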